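import Pool.Agent.Torelli.Shift

/-!
# Torelli / G / Tree : identities between words, evaluated blockwise

As `evWord_eq`, but the two sides are trees of words, and the images are computed block by block
(much cheaper than letter by letter).
-/

set_option autoImplicit false

namespace Pool.Agent.Torelli

open Pool.Torelli Pool.Torelli.Refl Gen

/-- trees of words -/
inductive Tr where
  | W (w : List (Gen × Bool))
  | mul (l r : Tr)

/-- value of a tree -/
def evTr (s : ℕ) : Tr → MulAut F
  | Tr.W w => evWord s w
  | Tr.mul l r => evTr s l * evTr s r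

/-- inverse tree -/
def Tr.inv : Tr → Tr
  | Tr.W w => Tr.W (invWd w)
  | Tr.mul l r => Tr.mul r.inv l.inv

/-- shifted tree -/
def Tr.sh (k : ℕ) : Tr → Tr
  | Tr.W w => Tr.W (shW k w)
  | Tr.mul l r => Tr.mul (l.sh k) (r.sh k)

/-- list of blocks -/
def Tr.bl : Tr → List (List (Gen × Bool))
  | Tr.W w => [w]
  | Tr.mul l r => l.bl ++ r.bl

/-- value of a list of blocks -/
def evB (s : ℕ) : List (List (Gen × Bool)) → MulAut F
  | [] => 1
  | w :: l => evWord s w * evB s l

theorem evB_append (s : ℕ) (u v : List (List (Gen × Bool))) :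
    evB s (u ++ v) = evB s u * evB s v := by
  induction u with
  | nil => simp [evB]
  | cons w l ih => rw [List.cons_append, evB, evB, ih, mul_assoc]

theorem evB_bl (s : ℕ) (t : Tr) : evB s t.bl = evTr s t := by
  induction t with
  | W w => simp [Tr.bl, evB, evTr]
  | mul l r ihl ihr => rw [Tr.bl, evB_append, ihl, ihr, evTr]

/-- all generators only involve letters `< m` -/
def okB (m : ℕ) (l : List (List (Gen × Bool))) : Bool := l.all fun w => w.all (okG m)

/-- the image list of a list of blocks -/
def imgB (m : ℕ) : List (List (Gen × Bool)) → List (List ℕ)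
  | [] => (List.range m).map (fun n => [2 * n])
  | w :: l => Refl.comp (imgWord m w) (imgB m l)

/-- checker -/
def chkTr (m : ℕ) (t1 t2 : Tr) : Bool :=
  okB m t1.bl && okB m t2.bl && decide (imgB m t1.bl = imgB m t2.bl)

theorem wf_imgB (m : ℕ) (l : List (List (Gen × Bool))) (hl : okB m l = true) :
    wf m (imgB m l) = true := by
  induction l with
  | nil => exact wf_imgWord m [] rfl
  | cons w l ih =>
    rw [okB, List.all_cons, Bool.and_eq_true] at hl
    exact wf_comp m _ _ (wf_imgWord m w hl.1) (ih hl.2)

theorem implements_evB (s m : ℕ) (l : List (List (Gen × Bool))) (hl : okB m l = true) :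
    Implements (eS s) (eS s) m ((evB s l : MulAut F) : F →* F) (imgB m l) := by
  induction l with
  | nil => exact implements_evWord s m [] rfl
  | cons w l ih =>
    rw [okB, List.all_cons, Bool.and_eq_true] at hl
    have h1 := (implements_evWord s m w hl.1).comp (ih hl.2) (wf_imgB m l hl.2)
    intro n hn
    have h2 := h1 n hn
    rw [imgB, ← h2]
    rfl

theorem evB_outside (s m : ℕ) (l : List (List (Gen × Bool))) (hl : okB m l = true) (n : ℕ)
    (hn : n < 2 * s ∨ 2 * s + m ≤ n) : evB s l (FreeGroup.of n) = FreeGroup.of n := by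
  induction l with
  | nil => rfl
  | cons w l ih =>
    rw [okB, List.all_cons, Bool.and_eq_true] at hl
    rw [evB, MulAut.mul_apply, ih hl.2, evWord_outside s m w hl.1 n hn]

/-- The tree checker is correct. -/
theorem evTr_eq (m : ℕ) (t1 t2 : Tr) (h : chkTr m t1 t2 = true) (s : ℕ) :
    evTr s t1 = evTr s t2 := by
  unfold chkTr at h
  rw [Bool.and_eq_true, Bool.and_eq_true, decide_eq_true_eq] at h
  obtain ⟨⟨h1, h2⟩, h3⟩ := h
  rw [← evB_bl, ← evB_bl]
  apply aut_ext_letters
  intro n
  by_cases hn : n < 2 * s ∨ 2 * s + m ≤ n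
  · rw [evB_outside s m _ h1 n hn, evB_outside s m _ h2 n hn]
  · obtain ⟨k, rfl⟩ : ∃ k, n = 2 * s + k := ⟨n - 2 * s, by omega⟩
    exact Implements.agree (implements_evB s m _ h1) (implements_evB s m _ h2) h3 k (by omega)

theorem evTr_W (s : ℕ) (w : List (Gen × Bool)) : evWord s w = evTr s (Tr.W w) := rfl

theorem evTr_mul' (s : ℕ) (l r : Tr) : evTr s l * evTr s r = evTr s (Tr.mul l r) := rfl

theorem evTr_inv' (s : ℕ) (t : Tr) : (evTr s t)⁻¹ = evTr s t.inv := by
  induction t with
  | W w => exact evWord_inv' s w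
  | mul l r ihl ihr => rw [evTr, mul_inv_rev, ihl, ihr]; rfl

theorem evTr_shift (s k : ℕ) (t : Tr) : evTr (s + k) t = evTr s (t.sh k) := by
  induction t with
  | W w => exact evWord_shift s k w
  | mul l r ihl ihr => rw [evTr, ihl, ihr]; rfl

end Pool.Agent.Torelli
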