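import Pool.Agent.Torelli.Inter
import Pool.Agent.Torelli.G.Tree

/-!
# Torelli project, part G: the finite certificates
-/

set_option autoImplicit false
set_option linter.unusedSimpArgs false

namespace Pool.Agent.Torelli

theorem cert_P_KB (s : ℕ) :
    P s * KB s * (P s)⁻¹ =
      ((Ta (s + 1) * Tb (s + 1) * Tb (s + 1)) * TD (s + 1) * (Ta (s + 1) * Tb (s + 1) * Tb (s + 1))⁻¹) *
      ((Ta (s + 1) * Tb (s + 1) * Tb (s + 1)) * KB s * (Ta (s + 1) * Tb (s + 1) * Tb (s + 1))⁻¹) *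
      ((P (s + 1) * (Tb (s + 2))⁻¹ * (Ta (s + 2))⁻¹) * (DX s)⁻¹ * (P (s + 1) * (Tb (s + 2))⁻¹ * (Ta (s + 2))⁻¹)⁻¹) := by
  simp only [w_eq, iota_eq, TD_eq, S_eq, DX_eq, BP_eq, gKA_eq, KA_eq, KB_eq, Ta_ew, Tb_ew, P_ew,
    evTr_W, evTr_shift, evTr_inv', evTr_mul']
  exact evTr_eq 6 _ _ (by decide +kernel) s

theorem cert_P_SKB (s : ℕ) :
    P s * S (s + 1) * KB s * (S (s + 1))⁻¹ * (P s)⁻¹ =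
      ((S (s + 1) * (Ta (s + 1))⁻¹ * Tb (s + 1)) * (DX (s + 1))⁻¹ * (S (s + 1) * (Ta (s + 1))⁻¹ * Tb (s + 1))⁻¹) *
      ((S (s + 1) * (Ta (s + 1))⁻¹ * Tb (s + 1)) * KB s * (S (s + 1) * (Ta (s + 1))⁻¹ * Tb (s + 1))⁻¹) *
      ((S (s + 1) * (w (s + 1) * P s * (w (s + 1))⁻¹)⁻¹ * (S (s + 1))⁻¹) * (S (s + 1) * P s * (S (s + 1))⁻¹) * (S (s + 1) * (w (s + 1) * P s * (w (s + 1))⁻¹)⁻¹ * (S (s + 1))⁻¹)⁻¹ * (S (s + 1) * P s * (S (s + 1))⁻¹)⁻¹ * P s * (S (s + 1) * P s * (S (s + 1))⁻¹) * (S (s + 1) * (w (s + 1) * P s * (w (s + 1))⁻¹)⁻¹ * (S (s + 1))⁻¹) * (S (s + 1) * P s * (S (s + 1))⁻¹)⁻¹ * (S (s + 1) * (w (s + 1) * P s * (w (s + 1))⁻¹)⁻¹ * (S (s + 1))⁻¹)⁻¹ * (P s)⁻¹) := by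
  simp only [w_eq, iota_eq, TD_eq, S_eq, DX_eq, BP_eq, gKA_eq, KA_eq, KB_eq, Ta_ew, Tb_ew, P_ew,
    evTr_W, evTr_shift, evTr_inv', evTr_mul']
  exact evTr_eq 6 _ _ (by decide +kernel) s

theorem cert_Pi_DX (s : ℕ) :
    (P s)⁻¹ * DX s * P s =
      ((Ta (s + 1) * Tb (s + 1) * Tb (s + 1)) * (KA s)⁻¹ * (Ta (s + 1) * Tb (s + 1) * Tb (s + 1))⁻¹) *
      ((Ta (s + 1) * Tb (s + 1) * Tb (s + 1)) * (TD (s + 1))⁻¹ * (Ta (s + 1) * Tb (s + 1) * Tb (s + 1))⁻¹) *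
      ((P (s + 1) * (Tb (s + 2))⁻¹ * (Ta (s + 2))⁻¹) * DX s * (P (s + 1) * (Tb (s + 2))⁻¹ * (Ta (s + 2))⁻¹)⁻¹) *
      ((w (s + 1) * P s * (w (s + 1))⁻¹)⁻¹ * (P s)⁻¹ * ((w (s + 1) * P s * (w (s + 1))⁻¹)⁻¹)⁻¹ * P s * (Ta s)⁻¹ * (Ta s)⁻¹) := by
  simp only [w_eq, iota_eq, TD_eq, S_eq, DX_eq, BP_eq, gKA_eq, KA_eq, KB_eq, Ta_ew, Tb_ew, P_ew,
    evTr_W, evTr_shift, evTr_inv', evTr_mul']
  exact evTr_eq 6 _ _ (by decide +kernel) s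

theorem cert_P_Dy (s : ℕ) :
    P s * w (s + 1) * DX s * (w (s + 1))⁻¹ * (P s)⁻¹ =
      ((Ta (s + 2) * (Tb (s + 1))⁻¹ * (Ta (s + 1))⁻¹) * DX s * (Ta (s + 2) * (Tb (s + 1))⁻¹ * (Ta (s + 1))⁻¹)⁻¹) *
      ((Ta (s + 1) * Tb (s + 1) * Tb (s + 1)) * (KB s)⁻¹ * (Ta (s + 1) * Tb (s + 1) * Tb (s + 1))⁻¹) *
      ((Ta (s + 1) * Tb (s + 1) * Tb (s + 1)) * (KA s)⁻¹ * (Ta (s + 1) * Tb (s + 1) * Tb (s + 1))⁻¹) *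
      ((Ta (s + 1) * Tb (s + 1) * Tb (s + 1)) * KB s * (Ta (s + 1) * Tb (s + 1) * Tb (s + 1))⁻¹) *
      ((P (s + 1) * (Tb (s + 2))⁻¹ * (Ta (s + 2))⁻¹) * (DX s)⁻¹ * (P (s + 1) * (Tb (s + 2))⁻¹ * (Ta (s + 2))⁻¹)⁻¹) *
      (P s * P s * (w (s + 1) * P s * (w (s + 1))⁻¹)⁻¹ * (P s)⁻¹ * ((w (s + 1) * P s * (w (s + 1))⁻¹)⁻¹)⁻¹ * (P s)⁻¹ * (w (s + 1) * P s * (w (s + 1))⁻¹)⁻¹ * P s * ((w (s + 1) * P s * (w (s + 1))⁻¹)⁻¹)⁻¹ * (P s)⁻¹) * TD (s + 1) := by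
  simp only [w_eq, iota_eq, TD_eq, S_eq, DX_eq, BP_eq, gKA_eq, KA_eq, KB_eq, Ta_ew, Tb_ew, P_ew,
    evTr_W, evTr_shift, evTr_inv', evTr_mul']
  exact evTr_eq 6 _ _ (by decide +kernel) s

theorem cert_P_Da2 (s : ℕ) :
    P s * S (s + 1) * DX s * (S (s + 1))⁻¹ * (P s)⁻¹ =
      ((S (s + 1) * (P (s + 1))⁻¹ * (Tb (s + 2))⁻¹) * DX s * (S (s + 1) * (P (s + 1))⁻¹ * (Tb (s + 2))⁻¹)⁻¹) *
      ((S (s + 1) * P s * (S (s + 1))⁻¹)⁻¹ * P s * (S (s + 1) * P s * (S (s + 1))⁻¹) * (P s)⁻¹) := by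
  simp only [w_eq, iota_eq, TD_eq, S_eq, DX_eq, BP_eq, gKA_eq, KA_eq, KB_eq, Ta_ew, Tb_ew, P_ew,
    evTr_W, evTr_shift, evTr_inv', evTr_mul']
  exact evTr_eq 6 _ _ (by decide +kernel) s

theorem cert_Pi_TD (s : ℕ) :
    (P s)⁻¹ * TD s * P s =
      (((Tb (s + 2))⁻¹ * (Ta (s + 1))⁻¹ * Tb (s + 1)) * (DX s)⁻¹ * ((Tb (s + 2))⁻¹ * (Ta (s + 1))⁻¹ * Tb (s + 1))⁻¹) *
      (((Ta (s + 1))⁻¹ * (Ta (s + 1))⁻¹ * Tb (s + 1)) * DX s * ((Ta (s + 1))⁻¹ * (Ta (s + 1))⁻¹ * Tb (s + 1))⁻¹) *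
      ((Ta (s + 1) * Tb (s + 1) * Tb (s + 1)) * (TD (s + 1))⁻¹ * (Ta (s + 1) * Tb (s + 1) * Tb (s + 1))⁻¹) *
      ((Ta (s + 1) * Tb (s + 1) * Tb (s + 1)) * (KA s)⁻¹ * (Ta (s + 1) * Tb (s + 1) * Tb (s + 1))⁻¹) *
      ((P (s + 1) * (Tb (s + 2))⁻¹ * (Ta (s + 2))⁻¹) * DX s * (P (s + 1) * (Tb (s + 2))⁻¹ * (Ta (s + 2))⁻¹)⁻¹) *
      ((w (s + 1) * P s * (w (s + 1))⁻¹)⁻¹ * (P s)⁻¹ * ((w (s + 1) * P s * (w (s + 1))⁻¹)⁻¹)⁻¹ * P s * (Ta s)⁻¹ * (Ta s)⁻¹) := by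
  simp only [w_eq, iota_eq, TD_eq, S_eq, DX_eq, BP_eq, gKA_eq, KA_eq, KB_eq, Ta_ew, Tb_ew, P_ew,
    evTr_W, evTr_shift, evTr_inv', evTr_mul']
  exact evTr_eq 6 _ _ (by decide +kernel) s

theorem cert_P_KB3 (s : ℕ) :
    P s * w (s + 1) * P (s + 1) * (w (s + 1))⁻¹ * KB s * w (s + 1) * (P (s + 1))⁻¹ * (w (s + 1))⁻¹ * (P s)⁻¹ =
      ((S (s + 1) * (Tb (s + 1))⁻¹ * Ta (s + 1)) * (KB (s + 1))⁻¹ * (S (s + 1) * (Tb (s + 1))⁻¹ * Ta (s + 1))⁻¹) *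
      ((Ta (s + 1) * (Tb (s + 1))⁻¹ * P (s + 1)) * KB s * (Ta (s + 1) * (Tb (s + 1))⁻¹ * P (s + 1))⁻¹) *
      ((Tb (s + 1) * (P (s + 1))⁻¹ * (Tb (s + 1))⁻¹) * (DX s)⁻¹ * (Tb (s + 1) * (P (s + 1))⁻¹ * (Tb (s + 1))⁻¹)⁻¹) *
      (((w (s + 1) * P s * (w (s + 1))⁻¹)⁻¹)⁻¹ * (S (s + 1) * P s * (S (s + 1))⁻¹)⁻¹ * (w (s + 1) * P s * (w (s + 1))⁻¹)⁻¹ * P s * (S (s + 1) * P s * (S (s + 1))⁻¹)⁻¹ * (w (s + 1) * P s * (w (s + 1))⁻¹)⁻¹ * P s * ((w (s + 1) * P s * (w (s + 1))⁻¹)⁻¹)⁻¹ * (P s)⁻¹ * ((w (s + 1) * P s * (w (s + 1))⁻¹)⁻¹)⁻¹ * (S (s + 1) * P s * (S (s + 1))⁻¹) * (w (s + 1) * P s * (w (s + 1))⁻¹)⁻¹ * P s * (w (s + 1) * P s * (w (s + 1))⁻¹)⁻¹ * (P s)⁻¹ * ((w (s + 1) * P s * (w (s + 1))⁻¹)⁻¹)⁻¹ * (S (s + 1) * P s * (S (s + 1))⁻¹) * (P s)⁻¹) := by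
  simp only [w_eq, iota_eq, TD_eq, S_eq, DX_eq, BP_eq, gKA_eq, KA_eq, KB_eq, Ta_ew, Tb_ew, P_ew,
    evTr_W, evTr_shift, evTr_inv', evTr_mul']
  exact evTr_eq 6 _ _ (by decide +kernel) s

theorem cert_Ta_KB (s : ℕ) :
    Ta s * KB s * (Ta s)⁻¹ =
      (KA s)⁻¹ * KB s := by
  simp only [w_eq, iota_eq, TD_eq, S_eq, DX_eq, BP_eq, gKA_eq, KA_eq, KB_eq, Ta_ew, Tb_ew, P_ew,
    evTr_W, evTr_shift, evTr_inv', evTr_mul']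
  exact evTr_eq 4 _ _ (by decide +kernel) s

theorem cert_Tai_KB (s : ℕ) :
    (Ta s)⁻¹ * KB s * Ta s =
      KA s * KB s := by
  simp only [w_eq, iota_eq, TD_eq, S_eq, DX_eq, BP_eq, gKA_eq, KA_eq, KB_eq, Ta_ew, Tb_ew, P_ew,
    evTr_W, evTr_shift, evTr_inv', evTr_mul']
  exact evTr_eq 4 _ _ (by decide +kernel) s

theorem cert_Tb_KA (s : ℕ) :
    Tb s * KA s * (Tb s)⁻¹ =
      KA s * (KB s)⁻¹ := by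
  simp only [w_eq, iota_eq, TD_eq, S_eq, DX_eq, BP_eq, gKA_eq, KA_eq, KB_eq, Ta_ew, Tb_ew, P_ew,
    evTr_W, evTr_shift, evTr_inv', evTr_mul']
  exact evTr_eq 4 _ _ (by decide +kernel) s

theorem cert_Tbi_KA (s : ℕ) :
    (Tb s)⁻¹ * KA s * Tb s =
      KA s * KB s := by
  simp only [w_eq, iota_eq, TD_eq, S_eq, DX_eq, BP_eq, gKA_eq, KA_eq, KB_eq, Ta_ew, Tb_ew, P_ew,
    evTr_W, evTr_shift, evTr_inv', evTr_mul']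
  exact evTr_eq 4 _ _ (by decide +kernel) s

theorem cert_KA (s : ℕ) :
    KA s =
      P s * (w (s + 1) * P s * (w (s + 1))⁻¹)⁻¹ * (P s)⁻¹ * ((w (s + 1) * P s * (w (s + 1))⁻¹)⁻¹)⁻¹ * (Ta s)⁻¹ * (Ta s)⁻¹ * (TD (s + 1))⁻¹ := by
  simp only [w_eq, iota_eq, TD_eq, S_eq, DX_eq, BP_eq, gKA_eq, KA_eq, KB_eq, Ta_ew, Tb_ew, P_ew,
    evTr_W, evTr_shift, evTr_inv', evTr_mul']
  exact evTr_eq 4 _ _ (by decide +kernel) s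

theorem cert_wTa (s : ℕ) :
    w s * Ta s * (w s)⁻¹ =
      (Tb s)⁻¹ := by
  simp only [w_eq, iota_eq, TD_eq, S_eq, DX_eq, BP_eq, gKA_eq, KA_eq, KB_eq, Ta_ew, Tb_ew, P_ew,
    evTr_W, evTr_shift, evTr_inv', evTr_mul']
  exact evTr_eq 2 _ _ (by decide +kernel) s

theorem cert_Ta_DX (s : ℕ) :
    Ta s * DX s =
      DX s * Ta s := by
  simp only [w_eq, iota_eq, TD_eq, S_eq, DX_eq, BP_eq, gKA_eq, KA_eq, KB_eq, Ta_ew, Tb_ew, P_ew,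
    evTr_W, evTr_shift, evTr_inv', evTr_mul']
  exact evTr_eq 4 _ _ (by decide +kernel) s

theorem cert_Tb_DX (s : ℕ) :
    Tb s * DX s =
      DX s * Tb s := by
  simp only [w_eq, iota_eq, TD_eq, S_eq, DX_eq, BP_eq, gKA_eq, KA_eq, KB_eq, Ta_ew, Tb_ew, P_ew,
    evTr_W, evTr_shift, evTr_inv', evTr_mul']
  exact evTr_eq 4 _ _ (by decide +kernel) s

theorem cert_Ta_TD (s : ℕ) :
    Ta s * TD s =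
      TD s * Ta s := by
  simp only [w_eq, iota_eq, TD_eq, S_eq, DX_eq, BP_eq, gKA_eq, KA_eq, KB_eq, Ta_ew, Tb_ew, P_ew,
    evTr_W, evTr_shift, evTr_inv', evTr_mul']
  exact evTr_eq 2 _ _ (by decide +kernel) s

theorem cert_Tb_TD (s : ℕ) :
    Tb s * TD s =
      TD s * Tb s := by
  simp only [w_eq, iota_eq, TD_eq, S_eq, DX_eq, BP_eq, gKA_eq, KA_eq, KB_eq, Ta_ew, Tb_ew, P_ew,
    evTr_W, evTr_shift, evTr_inv', evTr_mul']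
  exact evTr_eq 2 _ _ (by decide +kernel) s

theorem cert_DX (s : ℕ) :
    DX s =
      (iota s)⁻¹ * P s * iota s * P s := by
  simp only [w_eq, iota_eq, TD_eq, S_eq, DX_eq, BP_eq, gKA_eq, KA_eq, KB_eq, Ta_ew, Tb_ew, P_ew,
    evTr_W, evTr_shift, evTr_inv', evTr_mul']
  exact evTr_eq 4 _ _ (by decide +kernel) s

theorem cert_P_inv (s : ℕ) :
    (P s)⁻¹ =
      (DX s)⁻¹ * (iota s)⁻¹ * P s * iota s := by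
  simp only [w_eq, iota_eq, TD_eq, S_eq, DX_eq, BP_eq, gKA_eq, KA_eq, KB_eq, Ta_ew, Tb_ew, P_ew,
    evTr_W, evTr_shift, evTr_inv', evTr_mul']
  exact evTr_eq 4 _ _ (by decide +kernel) s

end Pool.Agent.Torelli
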