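import Pool.Agent.Torelli.G.Norm
import Pool.Agent.Torelli.Fin.CntClosed

/-!
# Torelli project, part G: `Tor s h = JG s h` for `h ≥ 4` (G3, G4)
-/

set_option autoImplicit false

namespace Pool.Agent.Torelli

/-- part TYPE (with PG) -/
def TypeStmt : Prop := ∀ s h, 3 ≤ h → ∀ D : Subgroup F, (∀ ψ ∈ Tor s h, ∀ x ∈ D, ψ x ∈ D) →
  (∀ γ ∈ M s h, γ (a s) = a s → ∀ x ∈ D, γ x ∈ D) → H s ∈ D → H (s + 1) ∈ D →
  (w s * P s * (w s)⁻¹) (H s) ∈ D → Delta s h ≤ D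

/-- part E -/
def EStmt : Prop := ∀ s h, 2 ≤ h → Tor s h ≤ JJ s h

section
variable {s k : ℕ}

theorem kap_mem_J_of_IA {u : F} (hu : u ∈ FS (s + 1) k) {n : ℤ}
    (h1 : push s u * Ta s ^ n ∈ IA) : push s u * Ta s ^ n ∈ JG s (k + 1) := by
  obtain ⟨h2, h3⟩ := eq_kap_of_IA hu h1
  rw [h3]; exact J_kap hu h2

theorem push_mem_J_of_IA {u : F} (hu : u ∈ FS (s + 1) k)
    (h1 : push s u ∈ IA) : push s u ∈ JG s (k + 1) := by
  have := kap_mem_J_of_IA (n := 0) hu (by simpa using h1)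
  simpa using this

/-- (a) -/
theorem G3_tor {ψ : MulAut F} (hk : 1 ≤ k) (hψ : ψ ∈ Tor (s + 1) k) :
    P s * ψ * (P s)⁻¹ ∈ JG s (k + 1) := by
  have ha : a (s + 1) ∈ FS (s + 1) k := a_mem_FS le_rfl (by omega)
  obtain ⟨n, hn⟩ := push_conj hψ.1 ha
  rw [push_a0] at hn
  have hu : a (s + 1) * (ψ (a (s + 1)))⁻¹ ∈ FS (s + 1) k := mul_mem ha (inv_mem (M_FS hψ.1 ha))
  have c : Commute (Ta s ^ (-n)) (push s (ψ (a (s + 1))))⁻¹ :=
    ((Ta_commute_push s _).zpow_left (-n)).inv_right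
  have e1 : P s * ψ * (P s)⁻¹ * ψ⁻¹ = push s (a (s + 1) * (ψ (a (s + 1)))⁻¹) * Ta s ^ (-n) := by
    calc P s * ψ * (P s)⁻¹ * ψ⁻¹ = P s * (ψ * P s * ψ⁻¹)⁻¹ := by group
      _ = P s * (Ta s ^ (-n) * (push s (ψ (a (s + 1))))⁻¹) := by rw [hn, mul_inv_rev, zpow_neg]
      _ = P s * ((push s (ψ (a (s + 1))))⁻¹ * Ta s ^ (-n)) := by rw [c.eq]
      _ = _ := by rw [map_mul, map_inv, push_a0]; group
  have h1 : P s * ψ * (P s)⁻¹ * ψ⁻¹ ∈ IA :=
    mul_mem (IA_normal.conj_mem _ hψ.2 _) (inv_mem hψ.2)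
  rw [e1] at h1
  have h2 := kap_mem_J_of_IA hu h1
  rw [← e1] at h2
  have e2 : P s * ψ * (P s)⁻¹ = P s * ψ * (P s)⁻¹ * ψ⁻¹ * ψ := by group
  rw [e2]
  exact mul_mem h2 (J_tor hψ)

/-- (b) -/
theorem G3_kap {u : F} (hk : 1 ≤ k) (hu : u ∈ FS (s + 1) k) (hc : cl u = 1) :
    P s * kap s u * (P s)⁻¹ ∈ JG s (k + 1) := by
  have ha : a (s + 1) ∈ FS (s + 1) k := a_mem_FS le_rfl (by omega)
  have := kap_conj_push hu ha hc
  rw [push_a0] at this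
  rw [this]
  refine J_kap (mul_mem (mul_mem ha hu) (inv_mem ha)) ?_
  rw [map_mul, map_mul, map_inv, hc]; simp

theorem conj_mul3 {G : Type*} [Group G] (g x y : G) :
    g * (x * y) * g⁻¹ = (g * x * g⁻¹) * (g * y * g⁻¹) := by group

theorem Pconj_theta {θ : MulAut F} (hk : 1 ≤ k) (hθ : θ ∈ M (s + 1) k)
    (h0 : P s * θ * KB s * θ⁻¹ * (P s)⁻¹ ∈ JG s (k + 1)) :
    P s * kapb s (θ (H (s + 1))) * (P s)⁻¹ ∈ JG s (k + 1) := by
  rw [← kapb_conj hθ (H_mem_FS le_rfl (by omega)) (cl_H _), kapb_H]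
  have e : P s * (θ * (KB s * TD (s + 1)) * θ⁻¹) * (P s)⁻¹ =
      (P s * θ * KB s * θ⁻¹ * (P s)⁻¹) * (P s * (θ * TD (s + 1) * θ⁻¹) * (P s)⁻¹) := by group
  rw [e]
  exact mul_mem h0 (G3_tor hk (Tor_conj (TD_mem_TorG le_rfl (by omega)) hθ))

/-- conjugates of `J` elements by `M (s+1) k` -/
theorem J_c {g φ : MulAut F} (hg : g ∈ M (s + 1) k) (hφ : φ ∈ JG s (k + 1)) :
    g * φ * g⁻¹ ∈ JG s (k + 1) := G1_conj hg φ hφ

theorem IA_c {g φ : MulAut F} (hφ : φ ∈ IA) : g * φ * g⁻¹ ∈ IA := IA_normal.conj_mem _ hφ g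

theorem IA_of_mul {x y z : MulAut F} (h : x = y * z) (hx : x ∈ IA) (hy : y ∈ IA) : z ∈ IA := by
  have : z = y⁻¹ * x := by rw [h]; group
  rw [this]; exact mul_mem (inv_mem hy) hx

section mem
variable (hk : 3 ≤ k)
include hk

theorem mTa1 : Ta (s + 1) ∈ M (s + 1) k := Ta_mem_M (by omega) (by omega)
theorem mTb1 : Tb (s + 1) ∈ M (s + 1) k := Tb_mem_M (by omega) (by omega)
theorem mTa2 : Ta (s + 2) ∈ M (s + 1) k := Ta_mem_M (by omega) (by omega)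
theorem mTb2 : Tb (s + 2) ∈ M (s + 1) k := Tb_mem_M (by omega) (by omega)
theorem mP1 : P (s + 1) ∈ M (s + 1) k := P_mem_M (by omega) (by omega)
theorem mS1 : S (s + 1) ∈ M (s + 1) k := S_mem_M (by omega) (by omega)
theorem mw1 : w (s + 1) ∈ M (s + 1) k := w_mem_M (by omega) (by omega)
theorem mw2 : w (s + 2) ∈ M (s + 1) k := w_mem_M (by omega) (by omega)
theorem mg1 : Ta (s + 1) * Tb (s + 1) * Tb (s + 1) ∈ M (s + 1) k :=
  mul_mem (mul_mem (mTa1 hk) (mTb1 hk)) (mTb1 hk)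
theorem mg2 : P (s + 1) * (Tb (s + 2))⁻¹ * (Ta (s + 2))⁻¹ ∈ M (s + 1) k :=
  mul_mem (mul_mem (mP1 hk) (inv_mem (mTb2 hk))) (inv_mem (mTa2 hk))

theorem JTD1 : TD (s + 1) ∈ JG s (k + 1) := J_tor (TD_mem_TorG le_rfl (by omega))
theorem JDX : DX s ∈ JG s (k + 1) := J_DX (by omega)
theorem JKA : KA s ∈ JG s (k + 1) := J_KA (by omega)
theorem JKB : KB s ∈ JG s (k + 1) := J_KB (by omega)

/-- letters -/
theorem fa1 : a (s + 1) ∈ FS (s + 1) k := a_mem_FS le_rfl (by omega)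
theorem fb1 : b (s + 1) ∈ FS (s + 1) k := b_mem_FS le_rfl (by omega)
theorem fa2 : a (s + 1 + 1) ∈ FS (s + 1) k := a_mem_FS (by omega) (by omega)
theorem fb2 : b (s + 1 + 1) ∈ FS (s + 1) k := b_mem_FS (by omega) (by omega)

end mem

theorem qa1 (s : ℕ) : push s (a (s + 1)) = P s := push_a0 s
theorem qb1 (s : ℕ) : push s (b (s + 1)) = (w (s + 1) * P s * (w (s + 1))⁻¹)⁻¹ :=
  push_b s 0
theorem qa2 (s : ℕ) : push s (a (s + 1 + 1)) = S (s + 1) * P s * (S (s + 1))⁻¹ :=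
  push_a s 1
theorem qb2 (s : ℕ) : push s (b (s + 1 + 1)) =
    S (s + 1) * (w (s + 1) * P s * (w (s + 1))⁻¹)⁻¹ * (S (s + 1))⁻¹ := push_b s 1

/-- `P KB P⁻¹` -/
theorem G3_KB (hk : 3 ≤ k) : P s * KB s * (P s)⁻¹ ∈ JG s (k + 1) := by
  rw [cert_P_KB]
  exact mul_mem (mul_mem (J_c (mg1 hk) (JTD1 hk)) (J_c (mg1 hk) (JKB hk)))
    (J_c (mg2 hk) (inv_mem (JDX hk)))

/-- `P (S KB S⁻¹) P⁻¹` -/
theorem G3_SKB (hk : 3 ≤ k) : P s * S (s + 1) * KB s * (S (s + 1))⁻¹ * (P s)⁻¹ ∈ JG s (k + 1) := by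
  have hc := cert_P_SKB s
  set g := S (s + 1) * (Ta (s + 1))⁻¹ * Tb (s + 1) with hg
  have mg : g ∈ M (s + 1) k := mul_mem (mul_mem (mS1 hk) (inv_mem (mTa1 hk))) (mTb1 hk)
  have hDX1 : DX (s + 1) ∈ Tor (s + 1) k := DX_mem_TorG le_rfl (by omega)
  have hIA : P s * S (s + 1) * KB s * (S (s + 1))⁻¹ * (P s)⁻¹ ∈ IA := by
    have : P s * S (s + 1) * KB s * (S (s + 1))⁻¹ * (P s)⁻¹ =
      (P s * S (s + 1)) * KB s * (P s * S (s + 1))⁻¹ := by group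
    rw [this]; exact IA_c (KB_mem_IA s)
  have hw : P s * S (s + 1) * KB s * (S (s + 1))⁻¹ * (P s)⁻¹ =
      g * (DX (s + 1))⁻¹ * g⁻¹ * (g * KB s * g⁻¹) *
      push s (b (s + 1 + 1) * a (s + 1 + 1) * (b (s + 1 + 1))⁻¹ * (a (s + 1 + 1))⁻¹ *
      a (s + 1) * a (s + 1 + 1) * b (s + 1 + 1) * (a (s + 1 + 1))⁻¹ * (b (s + 1 + 1))⁻¹ *
      (a (s + 1))⁻¹) := by
    rw [hc]; simp only [map_mul, map_inv, qa1, qb1, qa2, qb2]
  have h1 := IA_of_mul hw hIA (mul_mem (IA_c (inv_mem hDX1.2)) (IA_c (KB_mem_IA s)))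
  have h2 := push_mem_J_of_IA (k := k) (by
    have a1 := fa1 (s := s) hk
    have a2 := fa2 (s := s) hk
    have b2 := fb2 (s := s) hk
    repeat' first
      | with_reducible exact a1
      | with_reducible exact a2
      | with_reducible exact b2
      | with_reducible apply mul_mem
      | with_reducible apply inv_mem) h1
  rw [hw]
  exact mul_mem (mul_mem (J_c mg (inv_mem (J_tor hDX1))) (J_c mg (JKB hk))) h2

/-- `P (θ KB θ⁻¹) P⁻¹`, `θ = w₁ P₁ w₁⁻¹` -/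
theorem G3_KB3 (hk : 3 ≤ k) : P s * w (s + 1) * P (s + 1) * (w (s + 1))⁻¹ * KB s * w (s + 1) *
    (P (s + 1))⁻¹ * (w (s + 1))⁻¹ * (P s)⁻¹ ∈ JG s (k + 1) := by
  have hc := cert_P_KB3 s
  set h1 := S (s + 1) * (Tb (s + 1))⁻¹ * Ta (s + 1) with hh1
  set h2 := Ta (s + 1) * (Tb (s + 1))⁻¹ * P (s + 1) with hh2
  set h3 := Tb (s + 1) * (P (s + 1))⁻¹ * (Tb (s + 1))⁻¹ with hh3
  have m1 : h1 ∈ M (s + 1) k := mul_mem (mul_mem (mS1 hk) (inv_mem (mTb1 hk))) (mTa1 hk)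
  have m2 : h2 ∈ M (s + 1) k := mul_mem (mul_mem (mTa1 hk) (inv_mem (mTb1 hk))) (mP1 hk)
  have m3 : h3 ∈ M (s + 1) k := mul_mem (mul_mem (mTb1 hk) (inv_mem (mP1 hk))) (inv_mem (mTb1 hk))
  have hKB1 : KB (s + 1) ∈ Tor (s + 1) k := KB_mem_Tor le_rfl (by omega)
  have hIA : P s * w (s + 1) * P (s + 1) * (w (s + 1))⁻¹ * KB s * w (s + 1) *
      (P (s + 1))⁻¹ * (w (s + 1))⁻¹ * (P s)⁻¹ ∈ IA := by
    have : P s * w (s + 1) * P (s + 1) * (w (s + 1))⁻¹ * KB s * w (s + 1) *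
        (P (s + 1))⁻¹ * (w (s + 1))⁻¹ * (P s)⁻¹ =
        (P s * w (s + 1) * P (s + 1) * (w (s + 1))⁻¹) * KB s *
          (P s * w (s + 1) * P (s + 1) * (w (s + 1))⁻¹)⁻¹ := by group
    rw [this]; exact IA_c (KB_mem_IA s)
  have hw : P s * w (s + 1) * P (s + 1) * (w (s + 1))⁻¹ * KB s * w (s + 1) *
      (P (s + 1))⁻¹ * (w (s + 1))⁻¹ * (P s)⁻¹ =
      h1 * (KB (s + 1))⁻¹ * h1⁻¹ * (h2 * KB s * h2⁻¹) * (h3 * (DX s)⁻¹ * h3⁻¹) *
      push s ((b (s + 1))⁻¹ * (a (s + 1 + 1))⁻¹ * b (s + 1) * a (s + 1) * (a (s + 1 + 1))⁻¹ *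
        b (s + 1) * a (s + 1) * (b (s + 1))⁻¹ * (a (s + 1))⁻¹ * (b (s + 1))⁻¹ * a (s + 1 + 1) *
        b (s + 1) * a (s + 1) * b (s + 1) * (a (s + 1))⁻¹ * (b (s + 1))⁻¹ * a (s + 1 + 1) *
        (a (s + 1))⁻¹) := by
    rw [hc]; simp only [map_mul, map_inv, qa1, qb1, qa2]
  have k1 := IA_of_mul hw hIA (mul_mem (mul_mem (IA_c (inv_mem hKB1.2)) (IA_c (KB_mem_IA s)))
    (IA_c (inv_mem (DX_mem_IA s))))
  have k2 := push_mem_J_of_IA (k := k) (by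
    have a1 := fa1 (s := s) hk
    have a2 := fa2 (s := s) hk
    have b1 := fb1 (s := s) hk
    have b2 := fb2 (s := s) hk
    repeat' first
      | with_reducible exact a1
      | with_reducible exact a2
      | with_reducible exact b1
      | with_reducible exact b2
      | with_reducible apply mul_mem
      | with_reducible apply inv_mem) k1
  rw [hw]
  exact mul_mem (mul_mem (mul_mem (J_c m1 (inv_mem (J_tor hKB1))) (J_c m2 (JKB hk)))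
    (J_c m3 (inv_mem (JDX hk)))) k2

/-- `P (w₁ DX w₁⁻¹) P⁻¹` -/
theorem G3_Dy (hk : 3 ≤ k) : P s * w (s + 1) * DX s * (w (s + 1))⁻¹ * (P s)⁻¹ ∈ JG s (k + 1) := by
  have hc := cert_P_Dy s
  set g1 := Ta (s + 1) * Tb (s + 1) * Tb (s + 1) with hg1
  set g2 := P (s + 1) * (Tb (s + 2))⁻¹ * (Ta (s + 2))⁻¹ with hg2
  set h1 := Ta (s + 2) * (Tb (s + 1))⁻¹ * (Ta (s + 1))⁻¹ with hh1
  have m1 : h1 ∈ M (s + 1) k :=
    mul_mem (mul_mem (mTa2 hk) (inv_mem (mTb1 hk))) (inv_mem (mTa1 hk))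
  have n1 : g1 ∈ M (s + 1) k := mg1 hk
  have n2 : g2 ∈ M (s + 1) k := mg2 hk
  have hTD1 : TD (s + 1) ∈ Tor (s + 1) k := TD_mem_TorG le_rfl (by omega)
  have hIA : P s * w (s + 1) * DX s * (w (s + 1))⁻¹ * (P s)⁻¹ * (TD (s + 1))⁻¹ ∈ IA := by
    have : P s * w (s + 1) * DX s * (w (s + 1))⁻¹ * (P s)⁻¹ =
        (P s * w (s + 1)) * DX s * (P s * w (s + 1))⁻¹ := by group
    rw [this]; exact mul_mem (IA_c (DX_mem_IA s)) (inv_mem hTD1.2)
  have hw : P s * w (s + 1) * DX s * (w (s + 1))⁻¹ * (P s)⁻¹ * (TD (s + 1))⁻¹ =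
      h1 * DX s * h1⁻¹ * (g1 * (KB s)⁻¹ * g1⁻¹) * (g1 * (KA s)⁻¹ * g1⁻¹) * (g1 * KB s * g1⁻¹) *
      (g2 * (DX s)⁻¹ * g2⁻¹) *
      push s (a (s + 1) * a (s + 1) * b (s + 1) * (a (s + 1))⁻¹ * (b (s + 1))⁻¹ *
        (a (s + 1))⁻¹ * b (s + 1) * a (s + 1) * (b (s + 1))⁻¹ * (a (s + 1))⁻¹) := by
    rw [hc, mul_inv_cancel_right]; simp only [map_mul, map_inv, qa1, qb1]
  have k1 := IA_of_mul hw hIA (mul_mem (mul_mem (mul_mem (mul_mem (IA_c (DX_mem_IA s))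
    (IA_c (inv_mem (KB_mem_IA s)))) (IA_c (inv_mem (KA_mem_IA s)))) (IA_c (KB_mem_IA s)))
    (IA_c (inv_mem (DX_mem_IA s))))
  have k2 := push_mem_J_of_IA (k := k) (by
    have a1 := fa1 (s := s) hk
    have a2 := fa2 (s := s) hk
    have b1 := fb1 (s := s) hk
    have b2 := fb2 (s := s) hk
    repeat' first
      | with_reducible exact a1
      | with_reducible exact a2
      | with_reducible exact b1
      | with_reducible exact b2
      | with_reducible apply mul_mem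
      | with_reducible apply inv_mem) k1
  have e : P s * w (s + 1) * DX s * (w (s + 1))⁻¹ * (P s)⁻¹ =
    P s * w (s + 1) * DX s * (w (s + 1))⁻¹ * (P s)⁻¹ * (TD (s + 1))⁻¹ * TD (s + 1) := by group
  rw [e, hw]
  exact mul_mem (mul_mem (mul_mem (mul_mem (mul_mem (mul_mem (J_c m1 (JDX hk))
    (J_c n1 (inv_mem (JKB hk)))) (J_c n1 (inv_mem (JKA hk)))) (J_c n1 (JKB hk)))
    (J_c n2 (inv_mem (JDX hk)))) k2) (JTD1 hk)

/-- `P (S DX S⁻¹) P⁻¹` -/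
theorem G3_Da1 (hk : 3 ≤ k) : P s * S (s + 1) * DX s * (S (s + 1))⁻¹ * (P s)⁻¹ ∈ JG s (k + 1) := by
  have hc := cert_P_Da2 s
  set h1 := S (s + 1) * (P (s + 1))⁻¹ * (Tb (s + 2))⁻¹ with hh1
  have m1 : h1 ∈ M (s + 1) k :=
    mul_mem (mul_mem (mS1 hk) (inv_mem (mP1 hk))) (inv_mem (mTb2 hk))
  have hIA : P s * S (s + 1) * DX s * (S (s + 1))⁻¹ * (P s)⁻¹ ∈ IA := by
    have : P s * S (s + 1) * DX s * (S (s + 1))⁻¹ * (P s)⁻¹ =
        (P s * S (s + 1)) * DX s * (P s * S (s + 1))⁻¹ := by group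
    rw [this]; exact IA_c (DX_mem_IA s)
  have hw : P s * S (s + 1) * DX s * (S (s + 1))⁻¹ * (P s)⁻¹ =
      h1 * DX s * h1⁻¹ *
      push s ((a (s + 1 + 1))⁻¹ * a (s + 1) * a (s + 1 + 1) * (a (s + 1))⁻¹) := by
    rw [hc]; simp only [map_mul, map_inv, qa1, qa2]
  have k1 := IA_of_mul hw hIA (IA_c (DX_mem_IA s))
  have k2 := push_mem_J_of_IA (k := k) (by
    have a1 := fa1 (s := s) hk
    have a2 := fa2 (s := s) hk
    have b1 := fb1 (s := s) hk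
    have b2 := fb2 (s := s) hk
    repeat' first
      | with_reducible exact a1
      | with_reducible exact a2
      | with_reducible exact b1
      | with_reducible exact b2
      | with_reducible apply mul_mem
      | with_reducible apply inv_mem) k1
  rw [hw]
  exact mul_mem (J_c m1 (JDX hk)) k2

/-- `P⁻¹ DX P` -/
theorem G3_iDX (hk : 3 ≤ k) : (P s)⁻¹ * DX s * P s ∈ JG s (k + 1) := by
  have hc := cert_Pi_DX s
  set g1 := Ta (s + 1) * Tb (s + 1) * Tb (s + 1) with hg1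
  set g2 := P (s + 1) * (Tb (s + 2))⁻¹ * (Ta (s + 2))⁻¹ with hg2
  have n1 : g1 ∈ M (s + 1) k := mg1 hk
  have n2 : g2 ∈ M (s + 1) k := mg2 hk
  have hTD1 : TD (s + 1) ∈ Tor (s + 1) k := TD_mem_TorG le_rfl (by omega)
  have hIA : (P s)⁻¹ * DX s * P s ∈ IA := by
    have : (P s)⁻¹ * DX s * P s = (P s)⁻¹ * DX s * (P s)⁻¹⁻¹ := by group
    rw [this]; exact IA_c (DX_mem_IA s)
  have hw : (P s)⁻¹ * DX s * P s =
      g1 * (KA s)⁻¹ * g1⁻¹ * (g1 * (TD (s + 1))⁻¹ * g1⁻¹) * (g2 * DX s * g2⁻¹) *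
      (push s (b (s + 1) * (a (s + 1))⁻¹ * (b (s + 1))⁻¹ * a (s + 1)) * Ta s ^ (-2 : ℤ)) := by
    rw [hc]; simp only [map_mul, map_inv, qa1, qb1]
    rw [show (-2 : ℤ) = -1 + -1 by norm_num, zpow_add, zpow_neg, zpow_one]
    simp only [mul_assoc]
  have k1 := IA_of_mul hw hIA (mul_mem (mul_mem (IA_c (inv_mem (KA_mem_IA s)))
    (IA_c (inv_mem hTD1.2))) (IA_c (DX_mem_IA s)))
  have k2 := kap_mem_J_of_IA (k := k) (by
    have a1 := fa1 (s := s) hk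
    have a2 := fa2 (s := s) hk
    have b1 := fb1 (s := s) hk
    have b2 := fb2 (s := s) hk
    repeat' first
      | with_reducible exact a1
      | with_reducible exact a2
      | with_reducible exact b1
      | with_reducible exact b2
      | with_reducible apply mul_mem
      | with_reducible apply inv_mem) k1
  rw [hw]
  exact mul_mem (mul_mem (mul_mem (J_c n1 (inv_mem (JKA hk))) (J_c n1 (inv_mem (JTD1 hk))))
    (J_c n2 (JDX hk))) k2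

/-- `P⁻¹ TD P` -/
theorem G3_iTD (hk : 3 ≤ k) : (P s)⁻¹ * TD s * P s ∈ JG s (k + 1) := by
  have hc := cert_Pi_TD s
  set g1 := Ta (s + 1) * Tb (s + 1) * Tb (s + 1) with hg1
  set g2 := P (s + 1) * (Tb (s + 2))⁻¹ * (Ta (s + 2))⁻¹ with hg2
  set h1 := (Tb (s + 2))⁻¹ * (Ta (s + 1))⁻¹ * Tb (s + 1) with hh1
  set h2 := (Ta (s + 1))⁻¹ * (Ta (s + 1))⁻¹ * Tb (s + 1) with hh2
  have n1 : g1 ∈ M (s + 1) k := mg1 hk
  have n2 : g2 ∈ M (s + 1) k := mg2 hk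
  have m1 : h1 ∈ M (s + 1) k := mul_mem (mul_mem (inv_mem (mTb2 hk)) (inv_mem (mTa1 hk))) (mTb1 hk)
  have m2 : h2 ∈ M (s + 1) k := mul_mem (mul_mem (inv_mem (mTa1 hk)) (inv_mem (mTa1 hk))) (mTb1 hk)
  have hTD1 : TD (s + 1) ∈ Tor (s + 1) k := TD_mem_TorG le_rfl (by omega)
  have hIA : (P s)⁻¹ * TD s * P s ∈ IA := by
    have : (P s)⁻¹ * TD s * P s = (P s)⁻¹ * TD s * (P s)⁻¹⁻¹ := by group
    rw [this]; exact IA_c (TD_mem_IA s)
  have hw : (P s)⁻¹ * TD s * P s =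
      h1 * (DX s)⁻¹ * h1⁻¹ * (h2 * DX s * h2⁻¹) * (g1 * (TD (s + 1))⁻¹ * g1⁻¹) *
      (g1 * (KA s)⁻¹ * g1⁻¹) * (g2 * DX s * g2⁻¹) *
      (push s (b (s + 1) * (a (s + 1))⁻¹ * (b (s + 1))⁻¹ * a (s + 1)) * Ta s ^ (-2 : ℤ)) := by
    rw [hc]; simp only [map_mul, map_inv, qa1, qb1]
    rw [show (-2 : ℤ) = -1 + -1 by norm_num, zpow_add, zpow_neg, zpow_one]
    simp only [mul_assoc]
  have k1 := IA_of_mul hw hIA (mul_mem (mul_mem (mul_mem (mul_mem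
    (IA_c (inv_mem (DX_mem_IA s))) (IA_c (DX_mem_IA s))) (IA_c (inv_mem hTD1.2)))
    (IA_c (inv_mem (KA_mem_IA s)))) (IA_c (DX_mem_IA s)))
  have k2 := kap_mem_J_of_IA (k := k) (by
    have a1 := fa1 (s := s) hk
    have a2 := fa2 (s := s) hk
    have b1 := fb1 (s := s) hk
    have b2 := fb2 (s := s) hk
    repeat' first
      | with_reducible exact a1
      | with_reducible exact a2
      | with_reducible exact b1
      | with_reducible exact b2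
      | with_reducible apply mul_mem
      | with_reducible apply inv_mem) k1
  rw [hw]
  exact mul_mem (mul_mem (mul_mem (mul_mem (mul_mem (J_c m1 (inv_mem (JDX hk)))
    (J_c m2 (JDX hk))) (J_c n1 (inv_mem (JTD1 hk)))) (J_c n1 (inv_mem (JKA hk))))
    (J_c n2 (JDX hk))) k2

/-! ## conjugation by `P s` -/

theorem w_mem_NJ (hB : B1Stmt) (hk : 3 ≤ k) : w s ∈ NJ s k :=
  mul_mem (G2a hB hk) (inv_mem (G2b hB hk))

theorem iota_mem_NJ (hB : B1Stmt) (hk : 3 ≤ k) : iota s ∈ NJ s k :=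
  mul_mem (mul_mem (w_mem_NJ hB hk) (w_mem_NJ hB hk)) (w_mem_NJ hB hk)

theorem iota_comm_of {x : MulAut F} (h1 : Commute (Ta s) x) (h2 : Commute (Tb s) x) :
    Commute (iota s) x := by
  have hw : Commute (w s) x := h1.mul_left h2.inv_left
  exact (hw.mul_left hw).mul_left hw

/-- `P x P⁻¹` from `P⁻¹ x P`, for `x` commuting with `iota s` -/
theorem P_of_Pinv (hB : B1Stmt) (hk : 3 ≤ k) {x : MulAut F} (h1 : Commute (Ta s) x)
    (h2 : Commute (Tb s) x) (h : (P s)⁻¹ * x * P s ∈ JG s (k + 1)) :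
    P s * x * (P s)⁻¹ ∈ JG s (k + 1) := by
  have c : iota s * x = x * iota s := iota_comm_of h1 h2
  have e0 := cert_P_inv s
  have e1 : P s = iota s * DX s * (P s)⁻¹ * (iota s)⁻¹ := by
    conv_rhs => rw [e0]
    group
  have e2 : P s * x * (P s)⁻¹ =
      iota s * (DX s * ((P s)⁻¹ * x * P s) * (DX s)⁻¹) * (iota s)⁻¹ := by
    have c' : (iota s)⁻¹ * x * iota s = x := by rw [mul_assoc, ← c]; group
    calc P s * x * (P s)⁻¹ = (iota s * DX s * (P s)⁻¹ * (iota s)⁻¹) * x *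
          (iota s * DX s * (P s)⁻¹ * (iota s)⁻¹)⁻¹ := by rw [← e1]
      _ = iota s * DX s * (P s)⁻¹ * ((iota s)⁻¹ * x * iota s) * P s * (DX s)⁻¹ * (iota s)⁻¹ := by
        group
      _ = _ := by rw [c']; group
  rw [e2]
  exact NJ_conj (iota_mem_NJ hB hk) (NJ_conj (J_le_NJ (JDX hk)) h)

theorem G3_DX (hB : B1Stmt) (hk : 3 ≤ k) : P s * DX s * (P s)⁻¹ ∈ JG s (k + 1) :=
  P_of_Pinv hB hk (cert_Ta_DX s) (cert_Tb_DX s) (G3_iDX hk)

theorem G3_TD (hB : B1Stmt) (hk : 3 ≤ k) : P s * TD s * (P s)⁻¹ ∈ JG s (k + 1) :=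
  P_of_Pinv hB hk (cert_Ta_TD s) (cert_Tb_TD s) (G3_iTD hk)

theorem P_comm_high {γ : MulAut F} {i n : ℕ} (hi : s + 2 ≤ i) (hγ : γ ∈ M i n) :
    P s * γ = γ * P s :=
  M_commute (P_mem_M (s := s) (h := 2) le_rfl (by omega)) hγ (Or.inr hi)

/-- conjugating by a `γ` that commutes with `P s` -/
theorem P_conj_comm {γ x : MulAut F} {i n : ℕ} (hi : s + 2 ≤ i) (hγ : γ ∈ M i n)
    (hγ' : γ ∈ M (s + 1) k) (h : P s * x * (P s)⁻¹ ∈ JG s (k + 1)) :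
    P s * (γ * x * γ⁻¹) * (P s)⁻¹ ∈ JG s (k + 1) := by
  have c := P_comm_high hi hγ
  have c' : γ⁻¹ * (P s)⁻¹ = (P s)⁻¹ * γ⁻¹ := by
    have : Commute (P s) γ := c
    exact (this.inv_inv.eq).symm
  have e : P s * (γ * x * γ⁻¹) * (P s)⁻¹ = γ * (P s * x * (P s)⁻¹) * γ⁻¹ := by
    calc P s * (γ * x * γ⁻¹) * (P s)⁻¹ = (P s * γ) * x * (γ⁻¹ * (P s)⁻¹) := by group
      _ = _ := by rw [c, c']; group
  rw [e]
  exact J_c hγ' h

theorem G3_Da (hB : B1Stmt) (hk : 3 ≤ k) : ∀ i < k, P s * Da s i * (P s)⁻¹ ∈ JG s (k + 1) := by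
  intro i
  induction i with
  | zero => intro _; exact G3_DX hB hk
  | succ i ih =>
    intro hi
    cases i with
    | zero =>
      have e : P s * Da s (0 + 1) * (P s)⁻¹ =
        P s * S (s + 1) * DX s * (S (s + 1))⁻¹ * (P s)⁻¹ := by
        rw [Da, Da]; simp only [add_zero, mul_assoc]
      rw [e]; exact G3_Da1 hk
    | succ i =>
      rw [Da]
      exact P_conj_comm (i := s + 1 + (i + 1)) (n := 2) (by omega) (S_mem _ 2 le_rfl)
        (S_mem_M (by omega) (by omega)) (ih (by omega))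

theorem G3_Db1 (hB : B1Stmt) (hk : 3 ≤ k) : P s * Db s 1 * (P s)⁻¹ ∈ JG s (k + 1) := by
  have mw2' : w (s + 1 + 1) ∈ M (s + 1) k := w_mem_M (by omega) (by omega)
  obtain ⟨n, hn⟩ := dpush_conj mw2' (fa2 hk)
  have e0 : w (s + 1 + 1) (a (s + 1 + 1)) = (b (s + 1 + 1))⁻¹ := w_a0 _
  rw [e0, map_inv] at hn
  have ea : dpush s (a (s + 1 + 1)) = Da s 1 := dpush_a' s 1
  have eb : dpush s (b (s + 1 + 1)) = Db s 1 := dpush_b' s 1
  rw [ea, eb] at hn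
  have e1 : Db s 1 = TD s ^ n * (w (s + 1 + 1) * Da s 1 * (w (s + 1 + 1))⁻¹)⁻¹ := by
    rw [hn]; group
  have h1 : P s * (w (s + 1 + 1) * Da s 1 * (w (s + 1 + 1))⁻¹) * (P s)⁻¹ ∈ JG s (k + 1) :=
    P_conj_comm (i := s + 1 + 1) (n := 1) (by omega) (w_mem_M le_rfl (by omega)) mw2'
      (G3_Da hB hk 1 (by omega))
  have e2 : P s * Db s 1 * (P s)⁻¹ = (P s * TD s * (P s)⁻¹) ^ n *
      (P s * (w (s + 1 + 1) * Da s 1 * (w (s + 1 + 1))⁻¹) * (P s)⁻¹)⁻¹ := by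
    rw [e1]
    generalize w (s + 1 + 1) * Da s 1 * (w (s + 1 + 1))⁻¹ = X
    rw [conj_mul3, conj_zpow, conj_inv]
  rw [e2]
  exact mul_mem (zpow_mem (G3_TD hB hk) n) (inv_mem h1)

theorem G3_Db (hB : B1Stmt) (hk : 3 ≤ k) : ∀ i < k, P s * Db s i * (P s)⁻¹ ∈ JG s (k + 1) := by
  intro i
  induction i with
  | zero =>
    intro _
    have e : P s * Db s 0 * (P s)⁻¹ =
        (P s * w (s + 1) * DX s * (w (s + 1))⁻¹ * (P s)⁻¹)⁻¹ := by
      rw [Db]; group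
    rw [e]; exact inv_mem (G3_Dy hk)
  | succ i ih =>
    intro hi
    cases i with
    | zero => exact G3_Db1 hB hk
    | succ i =>
      rw [Db]
      exact P_conj_comm (i := s + 1 + (i + 1)) (n := 2) (by omega) (S_mem _ 2 le_rfl)
        (S_mem_M (by omega) (by omega)) (ih (by omega))

/-- the `TYPE` argument for `Kb` -/
theorem G3_kapb (hB : B1Stmt) (hTy : TypeStmt) (hk : 3 ≤ k) :
    ∀ u ∈ FS (s + 1) k, cl u = 1 → P s * kapb s u * (P s)⁻¹ ∈ JG s (k + 1) := by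
  have hHF : H (s + 1) ∈ FS (s + 1) k := H_mem_FS le_rfl (by omega)
  let D : Subgroup F :=
    { carrier := {u | u ∈ FS (s + 1) k ∧ cl u = 1 ∧ P s * kapb s u * (P s)⁻¹ ∈ JG s (k + 1)}
      one_mem' := ⟨one_mem _, map_one _, by rw [kapb_one]; simp⟩
      mul_mem' := by
        rintro u v ⟨u1, u2, u3⟩ ⟨v1, v2, v3⟩
        refine ⟨mul_mem u1 v1, by rw [map_mul, u2, v2, one_mul], ?_⟩
        rw [kapb_mul u1 v1 u2, conj_mul3]; exact mul_mem u3 v3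
      inv_mem' := by
        rintro u ⟨u1, u2, u3⟩
        refine ⟨inv_mem u1, by rw [map_inv, u2, inv_one], ?_⟩
        rw [kapb_inv u1 u2, ← conj_inv]; exact inv_mem u3 }
  have hD : Delta (s + 1) k ≤ D := by
    refine hTy (s + 1) k hk D ?_ ?_ ?_ ?_ ?_
    · rintro ψ hψ x ⟨x1, x2, x3⟩
      refine ⟨M_FS hψ.1 x1, (M_Tor_conj hψ.1 x x1 x2).2, ?_⟩
      rw [← kapb_conj hψ.1 x1 x2, conj_mul3, conj_mul3]
      have h1 := G3_tor (by omega) hψ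
      have e : P s * ψ⁻¹ * (P s)⁻¹ = (P s * ψ * (P s)⁻¹)⁻¹ := by group
      rw [e]
      exact mul_mem (mul_mem h1 x3) (inv_mem h1)
    · rintro γ hγ hγa x ⟨x1, x2, x3⟩
      refine ⟨M_FS hγ x1, (M_Tor_conj hγ x x1 x2).2, ?_⟩
      rw [← kapb_conj hγ x1 x2]
      obtain ⟨n, hn⟩ := push_conj (inv_mem hγ) (fa1 hk)
      rw [inv_inv, qa1, aut_inv_fix hγa, qa1] at hn
      have c : P s * Ta s ^ n = Ta s ^ n * P s := by
        have := (Ta_commute_push s (a (s + 1))).zpow_left n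
        rw [qa1] at this
        exact this.symm.eq
      have e1 : P s * γ = γ * Ta s ^ n * P s := by
        have : P s * γ = γ * (γ⁻¹ * P s * γ) := by group
        rw [this, hn, c]; group
      have e2 : P s * (γ * kapb s x * γ⁻¹) * (P s)⁻¹ =
          (γ * Ta s ^ n) * (P s * kapb s x * (P s)⁻¹) * (γ * Ta s ^ n)⁻¹ := by
        calc P s * (γ * kapb s x * γ⁻¹) * (P s)⁻¹ =
            (P s * γ) * kapb s x * (P s * γ)⁻¹ := by group
          _ = _ := by rw [e1]; group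
      rw [e2]
      exact NJ_conj (mul_mem (G1 hγ) (zpow_mem (G2a hB hk) n)) x3
    · refine ⟨hHF, cl_H _, ?_⟩
      have := Pconj_theta (s := s) (k := k) (θ := 1) (by omega) (one_mem _)
        (by simpa using G3_KB hk)
      simpa using this
    · refine ⟨H_mem_FS (by omega) (by omega), cl_H _, ?_⟩
      have := Pconj_theta (s := s) (k := k) (θ := S (s + 1)) (by omega) (mS1 hk) (G3_SKB hk)
      rwa [S_H0] at this
    · have mθ : w (s + 1) * P (s + 1) * (w (s + 1))⁻¹ ∈ M (s + 1) k :=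
        mul_mem (mul_mem (mw1 hk) (mP1 hk)) (inv_mem (mw1 hk))
      obtain ⟨e1, e2⟩ := M_Tor_conj mθ _ hHF (cl_H _)
      refine ⟨e1, e2, ?_⟩
      refine Pconj_theta (by omega) mθ ?_
      have e : P s * (w (s + 1) * P (s + 1) * (w (s + 1))⁻¹) * KB s *
          (w (s + 1) * P (s + 1) * (w (s + 1))⁻¹)⁻¹ * (P s)⁻¹ =
          P s * w (s + 1) * P (s + 1) * (w (s + 1))⁻¹ * KB s * w (s + 1) *
            (P (s + 1))⁻¹ * (w (s + 1))⁻¹ * (P s)⁻¹ := by group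
      rw [e]
      exact G3_KB3 hk
  intro u hu hc
  exact (hD (hB (s + 1) k hk u hu hc)).2.2

theorem G3_alg {G : Type*} [Group G] {p d i : G} (h : p⁻¹ = d⁻¹ * i⁻¹ * p * i) (x : G) :
    p⁻¹ * x * p = d⁻¹ * (i⁻¹ * (p * (i * x * i⁻¹) * p⁻¹) * i) * d := by
  calc p⁻¹ * x * p = (d⁻¹ * i⁻¹ * p * i) * x * (d⁻¹ * i⁻¹ * p * i)⁻¹ := by
        rw [← h, inv_inv]
    _ = _ := by group

theorem G3 (hB : B1Stmt) (hTy : TypeStmt) (hk : 3 ≤ k) : P s ∈ NJ s k := by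
  have h1 : ∀ φ ∈ JG s (k + 1), P s * φ * (P s)⁻¹ ∈ JG s (k + 1) :=
    J_conj_of (fun ψ hψ => G3_tor (by omega) hψ) (fun u hu hc => G3_kap (by omega) hu hc)
      (G3_kapb hB hTy hk) (G3_Da hB hk) (G3_Db hB hk) (G3_TD hB hk)
  refine ⟨h1, fun φ hφ => ?_⟩
  have e0 := cert_P_inv s
  have hi := iota_mem_NJ (s := s) hB hk
  have e : (P s)⁻¹ * φ * P s =
      (DX s)⁻¹ * ((iota s)⁻¹ * (P s * (iota s * φ * (iota s)⁻¹) * (P s)⁻¹) * iota s) * DX s :=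
    G3_alg e0 φ
  rw [e]
  exact (J_le_NJ (JDX hk)).2 _ (hi.2 _ (h1 _ (hi.1 φ hφ)))

theorem M_le_NJ (hB : B1Stmt) (hTy : TypeStmt) (hk : 3 ≤ k) : M s (k + 1) ≤ NJ s k := by
  refine M_le ?_ ?_ ?_
  · intro i h1 h2
    by_cases hi : i = s
    · rw [hi]; exact G2a hB hk
    · exact G1 (Ta_mem_M (by omega) (by omega))
  · intro i h1 h2
    by_cases hi : i = s
    · rw [hi]; exact G2b hB hk
    · exact G1 (Tb_mem_M (by omega) (by omega))
  · intro i h1 h2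
    by_cases hi : i = s
    · rw [hi]; exact G3 hB hTy hk
    · exact G1 (P_mem_M (by omega) (by omega))

theorem Da_mem_Tor : ∀ i, Da s i ∈ Tor s (i + 2) := by
  intro i
  induction i with
  | zero => exact DX_mem_TorG le_rfl (by omega)
  | succ i ih =>
    rw [Da]
    exact Tor_conj (Tor_mono le_rfl (by omega) ih) (S_mem_M (by omega) (by omega))

theorem Db_mem_Tor : ∀ i, Db s i ∈ Tor s (i + 2) := by
  intro i
  induction i with
  | zero =>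
    rw [Db]
    exact inv_mem (Tor_conj (DX_mem_TorG le_rfl (by omega)) (w_mem_M (by omega) (by omega)))
  | succ i ih =>
    rw [Db]
    exact Tor_conj (Tor_mono le_rfl (by omega) ih) (S_mem_M (by omega) (by omega))

theorem JG_le_Tor : JG s (k + 1) ≤ Tor s (k + 1) := by
  unfold JG
  rw [Nat.add_sub_cancel]
  refine sup_le (sup_le (sup_le (Tor_mono (by omega) (by omega)) ?_) ?_) ?_
  · unfold Ka
    rw [Subgroup.closure_le]
    rintro φ ⟨u, hu, hc, rfl⟩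
    rw [Nat.add_sub_cancel] at hu
    exact (kap_mem kapStmtG hu hc).1
  · unfold Kb
    rw [Subgroup.closure_le]
    rintro φ ⟨u, hu, hc, rfl⟩
    rw [Nat.add_sub_cancel] at hu
    exact (kap_mem kapStmtG hu hc).2
  · unfold Dp
    rw [Subgroup.closure_le]
    rintro φ (⟨i, hi, rfl | rfl⟩ | h)
    · exact Tor_mono le_rfl (by omega) (Da_mem_Tor i)
    · exact Tor_mono le_rfl (by omega) (Db_mem_Tor i)
    · rw [Set.mem_singleton_iff] at h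
      subst h
      exact TD_mem_TorG le_rfl (by omega)

end

/-- **Part G.** -/
theorem gStmt (hB : B1Stmt) (hTy : TypeStmt) (hE : EStmt) : GStmt := by
  intro s h hh
  obtain ⟨k, rfl⟩ : ∃ k, h = k + 1 := ⟨h - 1, by omega⟩
  have hk : 3 ≤ k := by omega
  apply le_antisymm
  · refine (hE s (k + 1) (by omega)).trans ?_
    unfold JJ
    rw [Subgroup.closure_le]
    rintro φ ⟨θ, hθ, rfl | ⟨-, rfl⟩⟩
    · exact NJ_conj (M_le_NJ hB hTy hk hθ) J_TD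
    · refine NJ_conj (M_le_NJ hB hTy hk hθ) ?_
      rw [BP]
      exact mul_mem (JDX hk) (inv_mem J_TD)
  · exact JG_le_Tor

/-- The frozen statement S14217 from the statements of the parts AB, C, PG, TYPE, B1, E, H. -/
theorem final_of_parts' (hL : LiftStmt) (hC : ClosedStmt) (hP : PGStmt) (hTy : TypeStmt)
    (hB : B1Stmt) (hE : EStmt) (hH : HStmt) :
    ∀ g : ℕ, 4 ≤ g → ∀ (G : Type) [Group G],
      Nonempty (G ≃* PiG g) →
      ∃ f : Fin ((4 * g ^ 3 - g) / 3) → MulAut G,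
        (∀ i : Fin ((4 * g ^ 3 - g) / 3), ∀ x : G,
            Abelianization.of (f i x) = Abelianization.of x) ∧
        ∀ ψ : MulAut G, (∀ x : G, Abelianization.of (ψ x) = Abelianization.of x) →
          ψ ∈ Subgroup.closure
            (Set.range f ∪ Set.range (fun x : G => MulAut.conj x)) :=
  final_of_parts hL hC hP hB kapStmtG (gStmt hB hTy hE) hH

end Pool.Agent.Torelli
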