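import Pool.Agent.Torelli.G.Certs
import Pool.Agent.Torelli.FPart.Hom
import Pool.Agent.Torelli.Fin.KapZeta
import Pool.Agent.Torelli.Fin.Cnt

/-!
# Torelli project, part G: `JG s (k+1)` is normalised by `M (s+1) k`, `Ta s`, `Tb s` (G1, G2)
-/

set_option autoImplicit false

namespace Pool.Agent.Torelli

/-- part F -/
theorem kapStmtG : KapStmt where
  mul := fun s k u v hu hv h1 _ => kap_mul hu hv h1
  tor := fun s k u hu h1 => kap_mem_Tor hu h1
  equiv := fun s k u γ hγ hu h1 => kap_conj hγ hu h1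

/-! ## elements of `IA` -/

theorem TD_mem_IA (s : ℕ) : TD s ∈ IA := by
  rw [mem_IA_iff]
  constructor
  · intro j
    by_cases hj : j = s
    · subst hj; rw [TD_a0, map_mul, map_mul, map_inv, cl_H]; simp
    · rw [a, TD_out s _ (by omega)]
  · intro j
    by_cases hj : j = s
    · subst hj; rw [TD_b0, map_mul, map_mul, map_inv, cl_H]; simp
    · rw [b, TD_out s _ (by omega)]

theorem DX_mem_IA (s : ℕ) : DX s ∈ IA := by
  rw [mem_IA_iff]
  constructor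
  · intro j
    by_cases hj : j = s
    · subst hj; rw [DX_a0]; simp [mul_comm]
    by_cases hj : j = s + 1
    · subst hj
      rw [DX_a1]
      simp only [map_mul, map_inv, cl_H, inv_one, mul_one]
      simp
    · rw [a, DX_out s _ (by omega)]
  · intro j
    by_cases hj : j = s
    · subst hj; rw [DX_b0]; simp [mul_comm]
    by_cases hj : j = s + 1
    · subst hj
      rw [DX_b1]
      simp only [map_mul, map_inv, cl_H, mul_one]
      simp
    · rw [b, DX_out s _ (by omega)]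

theorem TD_mem_TorG {s i k : ℕ} (h1 : s ≤ i) (h2 : i < s + k) : TD i ∈ Tor s k :=
  ⟨M_mono h1 (by omega) (TD_mem i 1 le_rfl), TD_mem_IA i⟩

theorem DX_mem_TorG {s i k : ℕ} (h1 : s ≤ i) (h2 : i + 1 < s + k) : DX i ∈ Tor s k :=
  ⟨M_mono h1 (by omega) (DX_mem i 2 le_rfl), DX_mem_IA i⟩

theorem kap_HG (s : ℕ) : kap s (H (s + 1)) = KA s * TD (s + 1) := by
  have h1 : kap s (H (s + 1)) = EH s 0 := by
    rw [← zeta_one, kap_zeta]; simp [Th]
  have h2 : EH s 0 = P s * (w (s + 1) * P s * (w (s + 1))⁻¹)⁻¹ * (P s)⁻¹ *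
      ((w (s + 1) * P s * (w (s + 1))⁻¹)⁻¹)⁻¹ * (Ta s)⁻¹ * (Ta s)⁻¹ := by
    unfold EH; rw [push_H]; rfl
  rw [h1, h2, cert_KA]; group

theorem w_TD_comm (s : ℕ) : w s * TD (s + 1) = TD (s + 1) * w s :=
  w_comm (k := 1) (TD_mem (s + 1) 1 le_rfl)

theorem kapb_H (s : ℕ) : kapb s (H (s + 1)) = KB s * TD (s + 1) := by
  have h1 : TD (s + 1) * (w s)⁻¹ = (w s)⁻¹ * TD (s + 1) := by
    have : Commute (w s) (TD (s + 1)) := w_TD_comm s
    exact (this.inv_left.eq).symm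
  rw [kapb, kap_HG, KB]
  simp only [mul_assoc]
  rw [h1]

theorem KA_mem_IA (s : ℕ) : KA s ∈ IA := by
  have h1 : KA s = kap s (H (s + 1)) * (TD (s + 1))⁻¹ := by rw [kap_HG]; group
  rw [h1]
  exact mul_mem (kap_mem_IA (h := 1) (H_mem_FS le_rfl (by omega)) (cl_H _)) (inv_mem (TD_mem_IA _))

theorem KB_mem_IA (s : ℕ) : KB s ∈ IA := by
  rw [KB]; exact IA_normal.conj_mem _ (KA_mem_IA s) _

theorem KB_mem_M (s : ℕ) : KB s ∈ M s 2 := KB_mem s 2 le_rfl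

theorem KB_mem_Tor {s i k : ℕ} (h1 : s ≤ i) (h2 : i + 1 < s + k) : KB i ∈ Tor s k :=
  ⟨M_mono h1 (by omega) (KB_mem_M i), KB_mem_IA i⟩

/-! ## membership in `JG s (k+1)` -/

section
variable {s k : ℕ}

theorem J_tor : Tor (s + 1) k ≤ JG s (k + 1) := by
  unfold JG
  rw [Nat.add_sub_cancel]
  exact le_sup_left.trans (le_sup_left.trans le_sup_left)

theorem J_kap {u : F} (hu : u ∈ FS (s + 1) k) (hc : cl u = 1) : kap s u ∈ JG s (k + 1) := by
  have h1 : Ka s (k + 1) ≤ JG s (k + 1) := by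
    unfold JG
    exact (le_sup_right.trans le_sup_left).trans le_sup_left
  exact h1 (Subgroup.subset_closure ⟨u, by rwa [Nat.add_sub_cancel], hc, rfl⟩)

theorem J_kapb {u : F} (hu : u ∈ FS (s + 1) k) (hc : cl u = 1) : kapb s u ∈ JG s (k + 1) := by
  have h1 : Kb s (k + 1) ≤ JG s (k + 1) := by
    unfold JG
    exact le_sup_right.trans le_sup_left
  exact h1 (Subgroup.subset_closure ⟨u, by rwa [Nat.add_sub_cancel], hc, rfl⟩)

theorem J_Dp : Dp s (k + 1) ≤ JG s (k + 1) := by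
  unfold JG; exact le_sup_right

theorem J_TD : TD s ∈ JG s (k + 1) := J_Dp (Subgroup.subset_closure (Or.inr rfl))

theorem J_Da {i : ℕ} (hi : i < k) : Da s i ∈ JG s (k + 1) :=
  J_Dp (Subgroup.subset_closure (Or.inl ⟨i, by omega, Or.inl rfl⟩))

theorem J_Db {i : ℕ} (hi : i < k) : Db s i ∈ JG s (k + 1) :=
  J_Dp (Subgroup.subset_closure (Or.inl ⟨i, by omega, Or.inr rfl⟩))

theorem dpush_a' (s i : ℕ) : dpush s (a (s + 1 + i)) = Da s i := by
  rw [dpush, gpush_a, Da_eq_GQ]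

theorem dpush_b' (s i : ℕ) : dpush s (b (s + 1 + i)) = Db s i := by
  rw [dpush, gpush_b, Db_eq_GQ]

theorem J_dpush {u : F} (hu : u ∈ FS (s + 1) k) : dpush s u ∈ JG s (k + 1) := by
  have : FS (s + 1) k ≤ (JG s (k + 1)).comap (dpush s) := by
    refine FS_le ?_ ?_
    · intro i h1 h2
      obtain ⟨j, rfl⟩ := Nat.exists_eq_add_of_le h1
      rw [Subgroup.mem_comap, dpush_a']
      exact J_Da (by omega)
    · intro i h1 h2
      obtain ⟨j, rfl⟩ := Nat.exists_eq_add_of_le h1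
      rw [Subgroup.mem_comap, dpush_b']
      exact J_Db (by omega)
  exact this hu

theorem J_DX (hk : 1 ≤ k) : DX s ∈ JG s (k + 1) := J_Da (i := 0) (by omega)

theorem J_KA (hk : 1 ≤ k) : KA s ∈ JG s (k + 1) := by
  have h1 : KA s = kap s (H (s + 1)) * (TD (s + 1))⁻¹ := by rw [kap_HG]; group
  rw [h1]
  exact mul_mem (J_kap (H_mem_FS le_rfl (by omega)) (cl_H _))
    (inv_mem (J_tor (TD_mem_TorG le_rfl (by omega))))

theorem J_KB (hk : 1 ≤ k) : KB s ∈ JG s (k + 1) := by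
  have h1 : KB s = kapb s (H (s + 1)) * (TD (s + 1))⁻¹ := by rw [kapb_H]; group
  rw [h1]
  exact mul_mem (J_kapb (H_mem_FS le_rfl (by omega)) (cl_H _))
    (inv_mem (J_tor (TD_mem_TorG le_rfl (by omega))))

/-- conjugation of `JG` by `g` -/
theorem J_conj_of {g : MulAut F}
    (h1 : ∀ ψ ∈ Tor (s + 1) k, g * ψ * g⁻¹ ∈ JG s (k + 1))
    (h2 : ∀ u ∈ FS (s + 1) k, cl u = 1 → g * kap s u * g⁻¹ ∈ JG s (k + 1))
    (h3 : ∀ u ∈ FS (s + 1) k, cl u = 1 → g * kapb s u * g⁻¹ ∈ JG s (k + 1))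
    (h4 : ∀ i < k, g * Da s i * g⁻¹ ∈ JG s (k + 1))
    (h5 : ∀ i < k, g * Db s i * g⁻¹ ∈ JG s (k + 1))
    (h6 : g * TD s * g⁻¹ ∈ JG s (k + 1)) : ∀ φ ∈ JG s (k + 1), g * φ * g⁻¹ ∈ JG s (k + 1) := by
  have : JG s (k + 1) ≤ (JG s (k + 1)).comap (MulAut.conj g).toMonoidHom := by
    conv_lhs => unfold JG
    rw [Nat.add_sub_cancel]
    refine sup_le (sup_le (sup_le h1 ?_) ?_) ?_
    · unfold Ka
      rw [Subgroup.closure_le]
      rintro φ ⟨u, hu, hc, rfl⟩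
      rw [Nat.add_sub_cancel] at hu
      exact h2 u hu hc
    · unfold Kb
      rw [Subgroup.closure_le]
      rintro φ ⟨u, hu, hc, rfl⟩
      rw [Nat.add_sub_cancel] at hu
      exact h3 u hu hc
    · unfold Dp
      rw [Subgroup.closure_le]
      rintro φ (⟨i, hi, rfl | rfl⟩ | h)
      · exact h4 i (by omega)
      · exact h5 i (by omega)
      · rw [Set.mem_singleton_iff] at h
        subst h
        exact h6
  intro φ hφ
  exact this hφ

/-- the normaliser of `JG s (k+1)` -/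
def NJ (s k : ℕ) : Subgroup (MulAut F) where
  carrier := {g | (∀ φ ∈ JG s (k + 1), g * φ * g⁻¹ ∈ JG s (k + 1)) ∧
    ∀ φ ∈ JG s (k + 1), g⁻¹ * φ * g ∈ JG s (k + 1)}
  one_mem' := ⟨fun φ h => by simpa using h, fun φ h => by simpa using h⟩
  mul_mem' := fun {g g'} h h' => ⟨fun φ hφ => by
    have := h.1 _ (h'.1 φ hφ)
    have e : g * g' * φ * (g * g')⁻¹ = g * (g' * φ * g'⁻¹) * g⁻¹ := by group
    rw [e]; exact this, fun φ hφ => by
    have := h'.2 _ (h.2 φ hφ)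
    have e : (g * g')⁻¹ * φ * (g * g') = g'⁻¹ * (g⁻¹ * φ * g) * g' := by group
    rw [e]; exact this⟩
  inv_mem' := fun {g} h => ⟨fun φ hφ => by rw [inv_inv]; exact h.2 φ hφ, fun φ hφ => by
    rw [inv_inv]; exact h.1 φ hφ⟩

theorem NJ_conj {g φ : MulAut F} (hg : g ∈ NJ s k) (hφ : φ ∈ JG s (k + 1)) :
    g * φ * g⁻¹ ∈ JG s (k + 1) := hg.1 φ hφ

theorem J_le_NJ : JG s (k + 1) ≤ NJ s k := fun g hg =>
  ⟨fun φ hφ => mul_mem (mul_mem hg hφ) (inv_mem hg),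
    fun φ hφ => mul_mem (mul_mem (inv_mem hg) hφ) hg⟩

theorem kapb_conj {γ : MulAut F} (hγ : γ ∈ M (s + 1) k) {u : F}
    (hu : u ∈ FS (s + 1) k) (h1 : cl u = 1) : γ * kapb s u * γ⁻¹ = kapb s (γ u) := by
  have c1 : Commute (w s) γ := w_comm hγ
  have c2 : γ * w s = w s * γ := c1.symm.eq
  have c3 : (w s)⁻¹ * γ⁻¹ = γ⁻¹ * (w s)⁻¹ := c1.inv_inv.eq
  unfold kapb
  rw [← kap_conj hγ hu h1]
  calc γ * (w s * kap s u * (w s)⁻¹) * γ⁻¹ = (γ * w s) * kap s u * ((w s)⁻¹ * γ⁻¹) := by group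
    _ = _ := by rw [c2, c3]; group

theorem kapb_mul {u v : F} (hu : u ∈ FS (s + 1) k) (hv : v ∈ FS (s + 1) k) (h1 : cl u = 1) :
    kapb s (u * v) = kapb s u * kapb s v := by
  unfold kapb; rw [kap_mul hu hv h1]; group

theorem kapb_one : kapb s 1 = 1 := by unfold kapb; rw [kap_one']; group

theorem kapb_inv {u : F} (hu : u ∈ FS (s + 1) k) (h1 : cl u = 1) :
    kapb s u⁻¹ = (kapb s u)⁻¹ := by
  unfold kapb; rw [kap_inv' hu h1]; group

/-! ## G1 -/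

theorem G1_conj {γ : MulAut F} (hγ : γ ∈ M (s + 1) k) :
    ∀ φ ∈ JG s (k + 1), γ * φ * γ⁻¹ ∈ JG s (k + 1) := by
  apply J_conj_of
  · intro ψ hψ; exact J_tor (Tor_conj hψ hγ)
  · intro u hu hc
    rw [kap_conj hγ hu hc]
    exact J_kap (M_FS hγ hu) (M_Tor_conj hγ u hu hc).2
  · intro u hu hc
    rw [kapb_conj hγ hu hc]
    exact J_kapb (M_FS hγ hu) (M_Tor_conj hγ u hu hc).2
  · intro i hi
    have hu : a (s + 1 + i) ∈ FS (s + 1) k := a_mem_FS (by omega) (by omega)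
    obtain ⟨n, hn⟩ := dpush_conj hγ hu
    rw [dpush_a'] at hn
    rw [hn]
    exact mul_mem (J_dpush (M_FS hγ hu)) (zpow_mem J_TD n)
  · intro i hi
    have hu : b (s + 1 + i) ∈ FS (s + 1) k := b_mem_FS (by omega) (by omega)
    obtain ⟨n, hn⟩ := dpush_conj hγ hu
    rw [dpush_b'] at hn
    rw [hn]
    exact mul_mem (J_dpush (M_FS hγ hu)) (zpow_mem J_TD n)
  · have : γ * TD s * γ⁻¹ = TD s := by
      have c : γ * TD s = TD s * γ := M_commute hγ (TD_mem s 1 le_rfl) (by omega)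
      rw [c]; group
    rw [this]; exact J_TD

theorem G1 : M (s + 1) k ≤ NJ s k := fun γ hγ => ⟨G1_conj hγ, fun φ hφ => by
  have := G1_conj (inv_mem hγ) φ hφ
  rwa [inv_inv] at this⟩

/-! ## the `Delta` argument -/

/-- words `u` of `[F_B, F_B]` with `g κ(u) g⁻¹ ∈ J` -/
theorem delta_arg (hB : B1Stmt) (hk : 3 ≤ k) {κ : F → MulAut F} (hκ1 : κ 1 = 1)
    (hκm : ∀ u v, u ∈ FS (s + 1) k → v ∈ FS (s + 1) k → cl u = 1 → cl v = 1 →
      κ (u * v) = κ u * κ v)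
    (hκi : ∀ u, u ∈ FS (s + 1) k → cl u = 1 → κ u⁻¹ = (κ u)⁻¹)
    (hκe : ∀ γ ∈ M (s + 1) k, ∀ u ∈ FS (s + 1) k, cl u = 1 → γ * κ u * γ⁻¹ = κ (γ u))
    {g : MulAut F} (hg : ∀ γ ∈ M (s + 1) k, g * γ = γ * g)
    (h0 : g * κ (H (s + 1)) * g⁻¹ ∈ JG s (k + 1)) :
    ∀ u ∈ FS (s + 1) k, cl u = 1 → g * κ u * g⁻¹ ∈ JG s (k + 1) := by
  let D : Subgroup F :=
    { carrier := {u | u ∈ FS (s + 1) k ∧ cl u = 1 ∧ g * κ u * g⁻¹ ∈ JG s (k + 1)}
      one_mem' := ⟨one_mem _, map_one _, by rw [hκ1]; simp⟩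
      mul_mem' := by
        rintro u v ⟨u1, u2, u3⟩ ⟨v1, v2, v3⟩
        refine ⟨mul_mem u1 v1, by rw [map_mul, u2, v2, one_mul], ?_⟩
        rw [hκm u v u1 v1 u2 v2]
        have e : g * (κ u * κ v) * g⁻¹ = (g * κ u * g⁻¹) * (g * κ v * g⁻¹) := by group
        rw [e]; exact mul_mem u3 v3
      inv_mem' := by
        rintro u ⟨u1, u2, u3⟩
        refine ⟨inv_mem u1, by rw [map_inv, u2, inv_one], ?_⟩
        rw [hκi u u1 u2]
        have e : g * (κ u)⁻¹ * g⁻¹ = (g * κ u * g⁻¹)⁻¹ := by group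
        rw [e]; exact inv_mem u3 }
  have hD : Delta (s + 1) k ≤ D := by
    unfold Delta
    rw [Subgroup.closure_le]
    rintro x ⟨θ, hθ, rfl⟩
    have hH : H (s + 1) ∈ FS (s + 1) k := H_mem_FS le_rfl (by omega)
    obtain ⟨e1, e2⟩ := M_Tor_conj hθ _ hH (cl_H _)
    refine ⟨e1, e2, ?_⟩
    rw [← hκe θ hθ _ hH (cl_H _)]
    have c := hg θ hθ
    have c' : g * θ⁻¹ = θ⁻¹ * g := hg θ⁻¹ (inv_mem hθ)
    have e3 : g * (θ * κ (H (s + 1)) * θ⁻¹) * g⁻¹ = θ * (g * κ (H (s + 1)) * g⁻¹) * θ⁻¹ := by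
      have c2 : θ⁻¹ * g⁻¹ = g⁻¹ * θ⁻¹ := by
        have : Commute g θ⁻¹ := c'
        exact (this.inv_left.eq).symm
      calc g * (θ * κ (H (s + 1)) * θ⁻¹) * g⁻¹
          = (g * θ) * κ (H (s + 1)) * (θ⁻¹ * g⁻¹) := by group
        _ = _ := by rw [c, c2]; group
    rw [e3]
    exact G1_conj hθ _ h0
  intro u hu hc
  exact (hD (hB (s + 1) k hk u hu hc)).2.2

/-! ## G2 -/

theorem GQ_commute_M1 {g x : MulAut F} (hg : g ∈ M s 1) (hx : Commute g x) (i : ℕ) :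
    Commute g (GQ s x i) := by
  induction i with
  | zero => exact hx
  | succ i ih =>
    rw [GQ]
    have c1 : Commute g (S (s + 1 + i)) :=
      M_commute hg (S_mem (s + 1 + i) 2 le_rfl) (Or.inr (by omega))
    exact (c1.mul_right ih).mul_right c1.inv_right

theorem conj_mem_of_commute {g x : MulAut F} (h : Commute g x) (hx : x ∈ JG s (k + 1)) :
    g * x * g⁻¹ ∈ JG s (k + 1) := by
  rw [conj_of_commute h]; exact hx

/-- conjugation by an element `g` of `M s 1` commuting with `DX s`, `TD s` -/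
theorem G2_of (g : MulAut F) (hg : g ∈ M s 1) (hDX : Commute g (DX s)) (hTD : Commute g (TD s))
    (h2 : ∀ u ∈ FS (s + 1) k, cl u = 1 → g * kap s u * g⁻¹ ∈ JG s (k + 1))
    (h3 : ∀ u ∈ FS (s + 1) k, cl u = 1 → g * kapb s u * g⁻¹ ∈ JG s (k + 1)) :
    ∀ φ ∈ JG s (k + 1), g * φ * g⁻¹ ∈ JG s (k + 1) := by
  have cw : Commute g (w (s + 1)) :=
    M_commute hg (w_mem_M (s := s + 1) (h := 1) le_rfl (by omega)) (Or.inr (by omega))
  apply J_conj_of
  · intro ψ hψ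
    exact conj_mem_of_commute (M_commute hg hψ.1 (Or.inr le_rfl)) (J_tor hψ)
  · exact h2
  · exact h3
  · intro i hi
    apply conj_mem_of_commute _ (J_Da hi)
    rw [Da_eq_GQ]
    exact GQ_commute_M1 hg hDX i
  · intro i hi
    apply conj_mem_of_commute _ (J_Db hi)
    rw [Db_eq_GQ]
    exact GQ_commute_M1 hg ((cw.mul_right hDX).mul_right cw.inv_right).inv_right i
  · exact conj_mem_of_commute hTD J_TD

theorem M1_comm {g : MulAut F} (hg : g ∈ M s 1) : ∀ γ ∈ M (s + 1) k, g * γ = γ * g :=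
  fun _ hγ => M_commute hg hγ (Or.inr le_rfl)

theorem kap_arg (hB : B1Stmt) (hk : 3 ≤ k) {g : MulAut F} (hg : g ∈ M s 1)
    (h0 : g * KA s * g⁻¹ ∈ JG s (k + 1)) :
    ∀ u ∈ FS (s + 1) k, cl u = 1 → g * kap s u * g⁻¹ ∈ JG s (k + 1) := by
  refine delta_arg hB hk (kap_one' s) (fun u v hu hv h1 _ => kap_mul hu hv h1)
    (fun u hu h1 => kap_inv' hu h1) (fun γ hγ u hu h1 => kap_conj hγ hu h1) (M1_comm hg) ?_
  rw [kap_HG]
  have c : Commute g (TD (s + 1)) := M_commute hg (TD_mem (s + 1) 1 le_rfl) (Or.inr le_rfl)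
  have e : g * (KA s * TD (s + 1)) * g⁻¹ = (g * KA s * g⁻¹) * (g * TD (s + 1) * g⁻¹) := by group
  rw [e, conj_of_commute c]
  exact mul_mem h0 (J_tor (TD_mem_TorG le_rfl (by omega)))

theorem kapb_arg (hB : B1Stmt) (hk : 3 ≤ k) {g : MulAut F} (hg : g ∈ M s 1)
    (h0 : g * KB s * g⁻¹ ∈ JG s (k + 1)) :
    ∀ u ∈ FS (s + 1) k, cl u = 1 → g * kapb s u * g⁻¹ ∈ JG s (k + 1) := by
  refine delta_arg hB hk kapb_one (fun u v hu hv h1 _ => kapb_mul hu hv h1)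
    (fun u hu h1 => kapb_inv hu h1) (fun γ hγ u hu h1 => kapb_conj hγ hu h1) (M1_comm hg) ?_
  rw [kapb_H]
  have c : Commute g (TD (s + 1)) := M_commute hg (TD_mem (s + 1) 1 le_rfl) (Or.inr le_rfl)
  have e : g * (KB s * TD (s + 1)) * g⁻¹ = (g * KB s * g⁻¹) * (g * TD (s + 1) * g⁻¹) := by group
  rw [e, conj_of_commute c]
  exact mul_mem h0 (J_tor (TD_mem_TorG le_rfl (by omega)))

theorem Ta_mem_M1 : Ta s ∈ M s 1 := Ta_mem_M le_rfl (by omega)
theorem Tb_mem_M1 : Tb s ∈ M s 1 := Tb_mem_M le_rfl (by omega)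

theorem G2a (hB : B1Stmt) (hk : 3 ≤ k) : Ta s ∈ NJ s k := by
  have c1 : Commute (Ta s) (DX s) := cert_Ta_DX s
  have c2 : Commute (Ta s) (TD s) := cert_Ta_TD s
  constructor
  · refine G2_of (Ta s) Ta_mem_M1 c1 c2 ?_ (kapb_arg hB hk Ta_mem_M1 ?_)
    · intro u hu hc
      exact conj_mem_of_commute (Ta_commute_kap s u) (J_kap hu hc)
    · rw [cert_Ta_KB]
      exact mul_mem (inv_mem (J_KA (by omega))) (J_KB (by omega))
  · have := G2_of (k := k) (Ta s)⁻¹ (inv_mem Ta_mem_M1) c1.inv_left c2.inv_left ?_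
      (kapb_arg hB hk (inv_mem Ta_mem_M1) ?_)
    · intro φ hφ
      have := this φ hφ
      rwa [inv_inv] at this
    · intro u hu hc
      exact conj_mem_of_commute (Ta_commute_kap s u).inv_left (J_kap hu hc)
    · rw [inv_inv, cert_Tai_KB]
      exact mul_mem (J_KA (by omega)) (J_KB (by omega))

theorem Tb_commute_kapb (s : ℕ) (u : F) : Commute (Tb s) (kapb s u) := by
  have h1 : Tb s = w s * (Ta s)⁻¹ * (w s)⁻¹ := by
    have := cert_wTa s
    have h2 : Tb s = (w s * Ta s * (w s)⁻¹)⁻¹ := by rw [this, inv_inv]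
    rw [h2]; group
  have c : (Ta s)⁻¹ * kap s u = kap s u * (Ta s)⁻¹ := (Ta_commute_kap s u).inv_left.eq
  rw [h1, kapb]
  show w s * (Ta s)⁻¹ * (w s)⁻¹ * (w s * kap s u * (w s)⁻¹) =
    w s * kap s u * (w s)⁻¹ * (w s * (Ta s)⁻¹ * (w s)⁻¹)
  calc w s * (Ta s)⁻¹ * (w s)⁻¹ * (w s * kap s u * (w s)⁻¹)
      = w s * ((Ta s)⁻¹ * kap s u) * (w s)⁻¹ := by group
    _ = _ := by rw [c]; group

theorem G2b (hB : B1Stmt) (hk : 3 ≤ k) : Tb s ∈ NJ s k := by
  have c1 : Commute (Tb s) (DX s) := cert_Tb_DX s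
  have c2 : Commute (Tb s) (TD s) := cert_Tb_TD s
  constructor
  · refine G2_of (Tb s) Tb_mem_M1 c1 c2 (kap_arg hB hk Tb_mem_M1 ?_) ?_
    · rw [cert_Tb_KA]
      exact mul_mem (J_KA (by omega)) (inv_mem (J_KB (by omega)))
    · intro u hu hc
      exact conj_mem_of_commute (Tb_commute_kapb s u) (J_kapb hu hc)
  · have := G2_of (k := k) (Tb s)⁻¹ (inv_mem Tb_mem_M1) c1.inv_left c2.inv_left
      (kap_arg hB hk (inv_mem Tb_mem_M1) ?_) ?_
    · intro φ hφ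
      have := this φ hφ
      rwa [inv_inv] at this
    · rw [inv_inv, cert_Tbi_KA]
      exact mul_mem (J_KA (by omega)) (J_KB (by omega))
    · intro u hu hc
      exact conj_mem_of_commute (Tb_commute_kapb s u).inv_left (J_kapb hu hc)

end

end Pool.Agent.Torelli
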